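import Pool.Agent.helper83.LE.SpecB

/-!
# Row PK3 (MP_baa4d7_al, project LE, block BOUND-L): rationality

A port of `helper31/FI/LRA.lean`. With `P u = β χ u * conj (F u)` the sum is `∑_(u ∈ R) (ε u / n u) * P u`; it does not change under `u ↦ u ^ s`, `p ∤ s`.
-/

set_option autoImplicit false

namespace Pool.Agent.LE

open Pool.Agent.helper58.DC Pool.Agent.DI Pool.Agent.GR Pool.Agent.OB Pool.Agent.DR Pool.Agent.FI Pool.Agent.FI3 Pool.Agent.FI4 Pool.Agent.FI4C

theorem PK3 (hLCG : LCG_stmt) (hLRU : LRU_stmt) : PK3_stmt := by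
  intro p M D _ _ X _ R I β d n δ ε hD hS χ F hF hF0
  classical
  have hpp : p.Prime := hD.set.pr
  have hpf : Fact p.Prime := ⟨hpp⟩
  obtain ⟨k, hk⟩ := hD.pg.exists_card_eq
  have hft : Fintype (D →* ℂˣ) := Fintype.ofFinite _
  set U : Finset ℕ := (Finset.range (p ^ (k + 1))).filter (fun s => ¬ p ∣ s) with hU
  have h1U : 1 ∈ U := by
    rw [hU, Finset.mem_filter, Finset.mem_range]
    refine ⟨Nat.one_lt_pow (Nat.succ_ne_zero k) hpp.one_lt, ?_⟩
    intro h
    exact hpp.one_lt.ne' (Nat.dvd_one.1 h)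
  have hU0 : (U.card : ℂ) ≠ 0 := by
    have : 0 < U.card := Finset.card_pos.2 ⟨1, h1U⟩
    exact_mod_cast this.ne'
  -- the function `P`
  obtain ⟨-, -, -, -, -, hc6, hc7, -⟩ := hLCG D
  obtain ⟨P, hPd⟩ : ∃ P : D → ℂ, P = fun u => β χ u * (starRingEnd ℂ) (F u) := ⟨_, rfl⟩
  have hP : LGC P := by
    rw [hPd]
    exact hc6 (β χ) (fun u => (starRingEnd ℂ) (F u)) (hD.lg χ) (hc7 F hF)
  obtain ⟨m, hm⟩ := hP
  have hm' : ∀ u, P u = ∑ j : D →* ℂˣ, (m j : ℂ) * lv j u := by
    intro u
    rw [hm u, finsum_eq_sum_of_fintype]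
  have hin : ∀ u, ∃ z : ℤ, ∑ s ∈ U, P (u ^ s) = (z : ℂ) := by
    intro u
    have hroot : ∀ j : D →* ℂˣ, lv j u ^ p ^ (k + 1) = 1 := by
      intro j
      have h1 : lv j u ^ p ^ k = 1 := by rw [← hk]; exact lv_pow_card j u
      rw [pow_succ, pow_mul, h1, one_pow]
    choose r hr using fun j : D →* ℂˣ => hLRU p (k + 1) (lv j u) hpp (hroot j)
    refine ⟨∑ j, m j * r j, ?_⟩
    simp only [hm']
    rw [Finset.sum_comm]
    push_cast
    refine Finset.sum_congr rfl fun j _ => ?_
    rw [← hr j, Finset.mul_sum]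
    refine Finset.sum_congr rfl fun s _ => ?_
    rw [lv_pow]
  choose z hz using hin
  -- the sum
  obtain ⟨H, hH⟩ : ∃ H : D → ℂ, H = fun u => if u ∈ R then ((ε u : ℂ) / (n u : ℂ)) * P u else 0 := ⟨_, rfl⟩
  have hn0 : ∀ u, u ∈ R → (n u : ℂ) ≠ 0 := by
    intro u hu h0
    apply hD.np u hu
    have : n u = 0 := by exact_mod_cast h0
    rw [this]
    exact dvd_zero _
  have hsum : ∑ u, R.indicator (fun u => (ε u : ℂ) * d χ u) u * (starRingEnd ℂ) (F u) = ∑ u, H u := by
    refine Finset.sum_congr rfl fun u _ => ?_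
    rw [hH]
    by_cases hu : u ∈ R
    · rw [Set.indicator_of_mem hu]
      simp only [hu, if_true]
      rw [hPd]
      simp only
      rw [hD.nd χ u hu]
      have := hn0 u hu
      field_simp
    · rw [Set.indicator_of_notMem hu, zero_mul]
      simp [hu]
  have hperm : ∀ s ∈ U, ∑ u, H u = ∑ u, if u ∈ R then ((ε u : ℂ) / (n u : ℂ)) * P (u ^ s) else 0 := by
    intro s hs
    rw [hU, Finset.mem_filter] at hs
    have hcop : (Nat.card D).Coprime s := by
      rw [hk]
      exact Nat.Coprime.pow_left k ((Nat.Prime.coprime_iff_not_dvd hpp).2 hs.2)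
    rw [← Equiv.sum_comp (powCoprime hcop) H]
    refine Finset.sum_congr rfl fun u _ => ?_
    have e1 : powCoprime hcop u = u ^ s := rfl
    rw [e1, hH]
    simp only
    have hmem : u ^ s ∈ R ↔ u ∈ R := by
      constructor
      · intro h
        have hco : s.Coprime (orderOf u) :=
          (Nat.Coprime.coprime_dvd_left (orderOf_dvd_natCard u) hcop).symm
        obtain ⟨t, ht⟩ := exists_pow_eq_self_of_coprime hco
        by_cases hpt : p ∣ t
        · -- then `u = 1`
          have hu1 : u = 1 := by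
            obtain ⟨b, hb⟩ : ∃ b, orderOf u = p ^ b := by
              have := hD.pg.exists_card_eq
              have h2 : orderOf u ∣ p ^ k := by rw [← hk]; exact orderOf_dvd_natCard u
              obtain ⟨b, -, hb⟩ := (Nat.dvd_prime_pow hpp).1 h2
              exact ⟨b, hb⟩
            rcases Nat.eq_zero_or_pos b with hb0 | hb0
            · rw [hb0, pow_zero] at hb
              exact orderOf_eq_one_iff.1 hb
            · exfalso
              have h3 : u ^ (s * t) = u ^ 1 := by rw [pow_mul, ht, pow_one]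
              have h4 : s * t ≡ 1 [MOD orderOf u] := (pow_eq_pow_iff_modEq).1 h3
              have h5 : s * t ≡ 1 [MOD p] := h4.of_dvd (by rw [hb]; exact dvd_pow_self p hb0.ne')
              have h6 : s * t ≡ 0 [MOD p] := (Nat.modEq_zero_iff_dvd).2 (dvd_mul_of_dvd_right hpt s)
              have h7 : 0 ≡ 1 [MOD p] := h6.symm.trans h5
              have h8 : p ∣ 1 := by
                have := (Nat.modEq_zero_iff_dvd).1 h7.symm
                exact this
              exact hpp.one_lt.ne' (Nat.dvd_one.1 h8)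
          rw [hu1] at h ⊢
          rw [one_pow] at h
          exact h
        · rw [← ht]
          exact (hD.pow _ h t hpt).1
      · intro h
        exact (hD.pow u h s hs.2).1
    by_cases hu : u ∈ R
    · have hus : u ^ s ∈ R := hmem.2 hu
      have hnn : n (u ^ s) = n u := (hD.pow u hu s hs.2).2
      have hee : ε (u ^ s) = ε u := hS.dep _ hus _ hu hnn
      rw [if_pos hus, if_pos hu, hnn, hee]
    · rw [if_neg (fun h => hu (hmem.1 h)), if_neg hu]
  have htot : (U.card : ℂ) * ∑ u, H u =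
      ∑ u, if u ∈ R then ((ε u : ℂ) / (n u : ℂ)) * (z u : ℂ) else 0 := by
    calc (U.card : ℂ) * ∑ u, H u = ∑ s ∈ U, ∑ u, H u := by rw [Finset.sum_const, nsmul_eq_mul]
      _ = ∑ s ∈ U, ∑ u, (if u ∈ R then ((ε u : ℂ) / (n u : ℂ)) * P (u ^ s) else 0) :=
        Finset.sum_congr rfl fun s hs => hperm s hs
      _ = ∑ u, ∑ s ∈ U, (if u ∈ R then ((ε u : ℂ) / (n u : ℂ)) * P (u ^ s) else 0) := Finset.sum_comm
      _ = ∑ u, if u ∈ R then ((ε u : ℂ) / (n u : ℂ)) * (z u : ℂ) else 0 := by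
        refine Finset.sum_congr rfl fun u _ => ?_
        by_cases hu : u ∈ R
        · simp only [hu, if_true]
          rw [← hz u, Finset.mul_sum]
        · simp [hu]
  refine ⟨(∑ u, if u ∈ R then ((ε u : ℚ) / (n u : ℚ)) * (z u : ℚ) else (0 : ℚ)) / (U.card : ℚ), ?_⟩
  rw [hsum]
  have hcast : (((∑ u, if u ∈ R then ((ε u : ℚ) / (n u : ℚ)) * (z u : ℚ) else (0 : ℚ)) / (U.card : ℚ) : ℚ) : ℂ) =
      (∑ u, if u ∈ R then ((ε u : ℂ) / (n u : ℂ)) * (z u : ℂ) else 0) / (U.card : ℂ) := by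
    rw [Rat.cast_div, Rat.cast_sum, Rat.cast_natCast]
    congr 1
    refine Finset.sum_congr rfl fun u _ => ?_
    by_cases hu : u ∈ R
    · simp only [hu, if_true]
      push_cast
      rfl
    · simp [hu]
  rw [hcast, ← htot, mul_div_cancel_left₀ _ hU0]

end Pool.Agent.LE
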